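import Mathlib
import Pool.Agent.V1175.Blaschke

/-!
# Signed sums of `1/(t²+n²)` have `o(X)` real zeros
-/

set_option autoImplicit false

namespace Pool.Agent.Results.MP_51e19e_an.SublinearZeros

open Filter Topology

/-- `f_a(t) = ∑_{n ≥ 1} a_n/(t²+n²)`. -/
noncomputable def f (a : ℕ → ℝ) (t : ℝ) : ℝ := ∑' n : ℕ, a (n + 1) / (t ^ 2 + ((n : ℝ) + 1) ^ 2)

/-- The number of distinct real zeros in `(-X, X)`. -/
noncomputable def Z (a : ℕ → ℝ) (X : ℝ) : ℕ := Set.ncard {t : ℝ | |t| < X ∧ f a t = 0}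

/-- the complex extension -/
noncomputable def F (a : ℕ → ℝ) (z : ℂ) : ℂ :=
  ∑' n : ℕ, (a (n + 1) : ℂ) / (z ^ 2 + ((n : ℂ) + 1) ^ 2)

lemma F_real (a : ℕ → ℝ) (t : ℝ) : F a t = (f a t : ℂ) := by
  unfold F f
  rw [Complex.ofReal_tsum]
  refine tsum_congr fun n => ?_
  push_cast; ring

lemma abs_a {a : ℕ → ℝ} (ha : ∀ n, a n = 1 ∨ a n = -1) (n : ℕ) : |a n| = 1 := by
  rcases ha n with h | h <;> rw [h] <;> simp

/-- distances to the poles -/
lemma normSq_fac (z : ℂ) (m : ℝ) : ‖z ^ 2 + (m : ℂ) ^ 2‖ ^ 2 =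
    (z.re ^ 2 + (z.im - m) ^ 2) * (z.re ^ 2 + (z.im + m) ^ 2) := by
  have e : z ^ 2 + (m : ℂ) ^ 2 = (z - m * Complex.I) * (z + m * Complex.I) := by
    have := Complex.I_sq
    linear_combination ((m : ℂ) ^ 2) * this
  rw [e, norm_mul, mul_pow, ← Complex.normSq_eq_norm_sq, ← Complex.normSq_eq_norm_sq,
    Complex.normSq_apply, Complex.normSq_apply]
  simp
  ring

/-- first lower bound, for differentiability -/
lemma lower1 {z : ℂ} {R : ℝ} (hz : 1 / 8 < z.re) (hR : ‖z‖ < R) {m : ℝ} (hm : 1 ≤ m) :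
    m ^ 2 ≤ (16 * R + 2) * ‖z ^ 2 + (m : ℂ) ^ 2‖ := by
  have hR0 : 0 < R := (norm_nonneg z).trans_lt hR
  have h1 := normSq_fac z m
  have h2 : z.im ^ 2 ≤ R ^ 2 := by
    have h3 := Complex.abs_im_le_norm z
    have h4 : |z.im| ≤ R := h3.trans hR.le
    exact sq_le_sq' (by have := abs_le.mp h4; linarith) (abs_le.mp h4).2
  have h5 : |z.im| ≤ R := (Complex.abs_im_le_norm z).trans hR.le
  have h6 := abs_le.mp h5
  have h7 : m ^ 2 ≤ (z.re ^ 2 + (z.im - m) ^ 2) ∨ m ^ 2 ≤ (z.re ^ 2 + (z.im + m) ^ 2) := by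
    rcases le_total 0 z.im with h | h
    · right; nlinarith [sq_nonneg z.re]
    · left; nlinarith [sq_nonneg z.re]
  have h8 : ∀ w : ℝ, |w| ≤ R → m ^ 2 ≤ (16 * R + 2) ^ 2 * (z.re ^ 2 + (w - m) ^ 2) := by
    intro w hw
    have h9 := abs_le.mp hw
    have h10 : 1 / 64 < z.re ^ 2 := by nlinarith
    rcases le_total m (2 * R) with h | h
    · have h11 : m ^ 2 ≤ (2 * R) ^ 2 := by nlinarith
      nlinarith [sq_nonneg (w - m), mul_nonneg (sq_nonneg (16 * R + 2)) (sq_nonneg (w - m))]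
    · have h11 : m / 2 ≤ m - w := by linarith
      have h12 : m ^ 2 / 4 ≤ (w - m) ^ 2 := by nlinarith
      have h13 : 4 ≤ (16 * R + 2) ^ 2 := by nlinarith
      nlinarith [sq_nonneg z.re, mul_nonneg (sq_nonneg (16 * R + 2)) (sq_nonneg z.re)]
  have h9 : (m ^ 2) ^ 2 ≤ ((16 * R + 2) * ‖z ^ 2 + (m : ℂ) ^ 2‖) ^ 2 := by
    rw [mul_pow, h1]
    have hA : 0 ≤ z.re ^ 2 + (z.im - m) ^ 2 := by positivity
    have hB : 0 ≤ z.re ^ 2 + (z.im + m) ^ 2 := by positivity
    have h10 := h8 z.im h5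
    have h11 := h8 (-z.im) (by rwa [abs_neg])
    have h12 : (-z.im - m) ^ 2 = (z.im + m) ^ 2 := by ring
    rw [h12] at h11
    rcases h7 with h | h
    · calc (m ^ 2) ^ 2 = m ^ 2 * m ^ 2 := by ring
        _ ≤ ((16 * R + 2) ^ 2 * (z.re ^ 2 + (z.im + m) ^ 2)) * (z.re ^ 2 + (z.im - m) ^ 2) :=
          mul_le_mul h11 h (by positivity) (by positivity)
        _ = _ := by ring
    · calc (m ^ 2) ^ 2 = m ^ 2 * m ^ 2 := by ring
        _ ≤ ((16 * R + 2) ^ 2 * (z.re ^ 2 + (z.im - m) ^ 2)) * (z.re ^ 2 + (z.im + m) ^ 2) :=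
          mul_le_mul h10 h (by positivity) (by positivity)
        _ = _ := by ring
  exact le_of_sq_le_sq h9 (by positivity)

lemma cast_m (n : ℕ) : ((n : ℂ) + 1) = (((n : ℝ) + 1 : ℝ) : ℂ) := by push_cast; ring

lemma F_diff {a : ℕ → ℝ} (ha : ∀ n, a n = 1 ∨ a n = -1) :
    DifferentiableOn ℂ (F a) {z | 1 / 8 < z.re} := by
  intro z0 hz0
  have hz0' : 1 / 8 < z0.re := hz0
  set R := ‖z0‖ + 1 with hR
  set U : Set ℂ := {z | 1 / 8 < z.re ∧ ‖z‖ < R} with hU
  have hUo : IsOpen U := by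
    apply IsOpen.inter
    · exact isOpen_lt continuous_const Complex.continuous_re
    · exact isOpen_lt continuous_norm continuous_const
  have hR0 : 0 < R := by positivity
  have hd : DifferentiableOn ℂ (F a) U := by
    apply Complex.differentiableOn_tsum_of_summable_norm
      (u := fun n : ℕ => (16 * R + 2) * (1 / ((n : ℝ) + 1) ^ 2))
    · apply Summable.mul_left
      have := (summable_nat_add_iff (f := fun n : ℕ => 1 / (n : ℝ) ^ 2) 1).mpr
        (Real.summable_one_div_nat_pow.mpr (by norm_num))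
      simpa using this
    · intro n z hz
      apply DifferentiableAt.differentiableWithinAt
      apply DifferentiableAt.div (by fun_prop) (by fun_prop)
      intro h
      have h1 := lower1 hz.1 hz.2 (m := (n : ℝ) + 1) (by have : (0:ℝ) ≤ n := Nat.cast_nonneg n
                                                         linarith)
      rw [← cast_m, h, norm_zero, mul_zero] at h1
      have : (0:ℝ) < ((n : ℝ) + 1) ^ 2 := by positivity
      linarith
    · exact hUo
    · intro n z hz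
      have h1 := lower1 hz.1 hz.2 (m := (n : ℝ) + 1) (by have : (0:ℝ) ≤ n := Nat.cast_nonneg n
                                                         linarith)
      rw [← cast_m] at h1
      rw [norm_div, Complex.norm_real, Real.norm_eq_abs, abs_a ha]
      have h2 : (0:ℝ) < ((n : ℝ) + 1) ^ 2 := by positivity
      have h3 : 0 < ‖z ^ 2 + ((n : ℂ) + 1) ^ 2‖ := by
        by_contra h4
        push Not at h4
        have h5 : ‖z ^ 2 + ((n : ℂ) + 1) ^ 2‖ = 0 := le_antisymm h4 (norm_nonneg _)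
        rw [h5, mul_zero] at h1
        linarith
      rw [mul_one_div, div_le_div_iff₀ h3 h2, one_mul]
      exact h1
  have hmem : z0 ∈ U := ⟨hz0', by rw [hR]; linarith⟩
  exact ((hd z0 hmem).differentiableAt (hUo.mem_nhds hmem)).differentiableWithinAt

/-- the sum over the integers -/
lemma summ_int : Summable fun j : ℤ => 1 / (1 + (j : ℝ) ^ 2) := by
  have h : Summable fun n : ℕ => 1 / (1 + (n : ℝ) ^ 2) := by
    have h1 := ((summable_nat_add_iff (f := fun n : ℕ => 1 / (n : ℝ) ^ 2) 1).mpr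
        (Real.summable_one_div_nat_pow.mpr (by norm_num))).mul_left 2
    refine Summable.of_nonneg_of_le (fun n => by positivity) (fun n => ?_) h1
    push_cast
    rw [mul_one_div, div_le_div_iff₀ (by positivity) (by positivity)]
    nlinarith [sq_nonneg ((n : ℝ) - 1)]
  apply Summable.of_nat_of_neg
  · simpa using h
  · simpa using h

lemma shift_bound (τ : ℝ) (j : ℤ) :
    1 / (1 + ((j + ⌊τ⌋ : ℤ) - τ : ℝ) ^ 2) ≤ 3 * (1 / (1 + (j : ℝ) ^ 2)) := by
  push_cast
  set θ := τ - ⌊τ⌋ with hθ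
  have h0 : 0 ≤ θ := sub_nonneg.mpr (Int.floor_le τ)
  have h1 : θ < 1 := by have := Int.lt_floor_add_one τ; rw [hθ]; linarith
  have e : (j : ℝ) + ⌊τ⌋ - τ = j - θ := by rw [hθ]; ring
  rw [e, mul_one_div, div_le_div_iff₀ (by positivity) (by positivity)]
  nlinarith [sq_nonneg ((j : ℝ) - 2 * θ)]

lemma tau_summ (τ : ℝ) : Summable fun j : ℤ => 1 / (1 + ((j : ℝ) - τ) ^ 2) := by
  have h : Summable fun j : ℤ => 1 / (1 + ((j + ⌊τ⌋ : ℤ) - τ : ℝ) ^ 2) :=
    Summable.of_nonneg_of_le (fun j => by positivity) (shift_bound τ) (summ_int.mul_left 3)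
  exact (Equiv.addRight ⌊τ⌋).summable_iff.mp h

lemma tau_bound (τ : ℝ) : ∑' j : ℤ, 1 / (1 + ((j : ℝ) - τ) ^ 2) ≤
    3 * ∑' j : ℤ, 1 / (1 + (j : ℝ) ^ 2) := by
  rw [← (Equiv.addRight ⌊τ⌋).tsum_eq (fun j : ℤ => 1 / (1 + ((j : ℝ) - τ) ^ 2)), ← tsum_mul_left]
  have h : Summable fun j : ℤ => 1 / (1 + ((j + ⌊τ⌋ : ℤ) - τ : ℝ) ^ 2) :=
    Summable.of_nonneg_of_le (fun j => by positivity) (shift_bound τ) (summ_int.mul_left 3)
  exact h.tsum_le_tsum (shift_bound τ) (summ_int.mul_left 3)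

/-- the uniform bound -/
noncomputable def C0 : ℝ := 48 * ∑' j : ℤ, 1 / (1 + (j : ℝ) ^ 2)

lemma term_bound {z : ℂ} (hz : 1 / 4 ≤ z.re) {m : ℝ} :
    1 / ‖z ^ 2 + (m : ℂ) ^ 2‖ ≤ 8 * (1 / (1 + (m - z.im) ^ 2)) + 8 * (1 / (1 + (-m - z.im) ^ 2)) := by
  have h1 := normSq_fac z m
  set A := z.re ^ 2 + (z.im - m) ^ 2 with hA
  set B := z.re ^ 2 + (z.im + m) ^ 2 with hB
  have hre : 1 / 16 ≤ z.re ^ 2 := by nlinarith
  have hA1 : (1 + (m - z.im) ^ 2) / 16 ≤ A := by
    rw [hA]; nlinarith [sq_nonneg (m - z.im)]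
  have hB1 : (1 + (-m - z.im) ^ 2) / 16 ≤ B := by
    rw [hB]; nlinarith [sq_nonneg (m + z.im)]
  have hA0 : 0 < A := by nlinarith [sq_nonneg (m - z.im)]
  have hB0 : 0 < B := by nlinarith [sq_nonneg (m + z.im)]
  have hn : 0 < ‖z ^ 2 + (m : ℂ) ^ 2‖ := by
    have h2 : 0 < ‖z ^ 2 + (m : ℂ) ^ 2‖ ^ 2 := by rw [h1]; positivity
    by_contra h4
    push Not at h4
    have h5 : ‖z ^ 2 + (m : ℂ) ^ 2‖ = 0 := le_antisymm h4 (norm_nonneg _)
    rw [h5] at h2
    norm_num at h2
  have h3 : 1 / ‖z ^ 2 + (m : ℂ) ^ 2‖ ≤ (1 / A + 1 / B) / 2 := by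
    apply le_of_sq_le_sq _ (by positivity)
    rw [div_pow, one_pow, h1]
    have : 1 / (A * B) = (1 / A) * (1 / B) := by field_simp
    rw [this]
    nlinarith [sq_nonneg (1 / A - 1 / B)]
  have h4 : 1 / A ≤ 16 * (1 / (1 + (m - z.im) ^ 2)) := by
    rw [mul_one_div, div_le_div_iff₀ hA0 (by positivity)]
    linarith
  have h5 : 1 / B ≤ 16 * (1 / (1 + (-m - z.im) ^ 2)) := by
    rw [mul_one_div, div_le_div_iff₀ hB0 (by positivity)]
    linarith
  linarith


lemma F_bound {a : ℕ → ℝ} (ha : ∀ n, a n = 1 ∨ a n = -1) {z : ℂ} (hz : 1 / 4 ≤ z.re) :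
    ‖F a z‖ ≤ C0 := by
  set φ : ℤ → ℝ := fun j => 1 / (1 + ((j : ℝ) - z.im) ^ 2) with hφ
  have hφs : Summable φ := tau_summ z.im
  have hφ0 : ∀ j, 0 ≤ φ j := fun j => by simp only [hφ]; positivity
  have hi1 : Function.Injective (fun n : ℕ => ((n : ℤ) + 1)) := by
    intro x y h
    simp only at h
    omega
  have hi2 : Function.Injective (fun n : ℕ => (-((n : ℤ) + 1))) := by
    intro x y h
    simp only at h
    omega
  have hs1 : Summable (φ ∘ fun n : ℕ => ((n : ℤ) + 1)) := hφs.comp_injective hi1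
  have hs2 : Summable (φ ∘ fun n : ℕ => (-((n : ℤ) + 1))) := hφs.comp_injective hi2
  have hb : ∀ n : ℕ, ‖(a (n + 1) : ℂ) / (z ^ 2 + ((n : ℂ) + 1) ^ 2)‖ ≤
      8 * (φ ∘ fun n : ℕ => ((n : ℤ) + 1)) n + 8 * (φ ∘ fun n : ℕ => (-((n : ℤ) + 1))) n := by
    intro n
    rw [norm_div, Complex.norm_real, Real.norm_eq_abs, abs_a ha, cast_m]
    have := term_bound hz (m := (n : ℝ) + 1)
    simp only [Function.comp, hφ]
    push_cast at this ⊢
    exact this
  have hs := (hs1.mul_left 8).add (hs2.mul_left 8)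
  have h1 := tsum_of_norm_bounded hs.hasSum hb
  refine h1.trans ?_
  rw [(hs1.mul_left 8).tsum_add (hs2.mul_left 8), tsum_mul_left, tsum_mul_left]
  have h2 : ∑' n, (φ ∘ fun n : ℕ => ((n : ℤ) + 1)) n ≤ ∑' j, φ j :=
    hs1.tsum_le_tsum_of_inj _ hi1 (fun c _ => hφ0 c) (fun _ => le_rfl) hφs
  have h3 : ∑' n, (φ ∘ fun n : ℕ => (-((n : ℤ) + 1))) n ≤ ∑' j, φ j :=
    hs2.tsum_le_tsum_of_inj _ hi2 (fun c _ => hφ0 c) (fun _ => le_rfl) hφs
  have h4 := tau_bound z.im
  unfold C0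
  have h5 : ∑' j, φ j ≤ 3 * ∑' j : ℤ, 1 / (1 + (j : ℝ) ^ 2) := h4
  linarith

/-- No zeros near the origin. -/
lemma f_ne {a : ℕ → ℝ} (ha : ∀ n, a n = 1 ∨ a n = -1) {t : ℝ} (ht : |t| ≤ 1 / 2) : f a t ≠ 0 := by
  have ht2 : t ^ 2 ≤ 1 / 4 := by
    have := abs_le.mp ht
    nlinarith
  have hz := hasSum_zeta_two
  have hs0 : Summable fun n : ℕ => 1 / ((n : ℝ) + 1) ^ 2 := by
    have := (summable_nat_add_iff (f := fun n : ℕ => 1 / (n : ℝ) ^ 2) 1).mpr hz.summable
    simpa using this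
  have hs1 : Summable fun n : ℕ => 1 / ((n : ℝ) + 1 + 1) ^ 2 := by
    have := (summable_nat_add_iff (f := fun n : ℕ => 1 / ((n : ℝ) + 1) ^ 2) 1).mpr hs0
    simpa using this
  have hsum1 : ∑' n : ℕ, 1 / ((n : ℝ) + 1 + 1) ^ 2 = Real.pi ^ 2 / 6 - 1 := by
    have h1 := hz.tsum_eq
    rw [hz.summable.tsum_eq_zero_add] at h1
    have h2 : ∑' b : ℕ, 1 / (((b + 1 : ℕ) : ℝ)) ^ 2 = ∑' n : ℕ, 1 / ((n : ℝ) + 1) ^ 2 := by
      refine tsum_congr fun n => by push_cast; ring
    rw [h2, hs0.tsum_eq_zero_add] at h1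
    have h3 : ∑' b : ℕ, 1 / (((b + 1 : ℕ) : ℝ) + 1) ^ 2 = ∑' n : ℕ, 1 / ((n : ℝ) + 1 + 1) ^ 2 := by
      refine tsum_congr fun n => by push_cast; ring
    rw [h3] at h1
    simp only [one_div] at h1 ⊢
    norm_num at h1
    linarith
  have hnorm : ∀ n : ℕ, ‖a (n + 1) / (t ^ 2 + ((n : ℝ) + 1) ^ 2)‖ ≤ 1 / ((n : ℝ) + 1) ^ 2 := by
    intro n
    rw [norm_div, Real.norm_eq_abs, abs_a ha, Real.norm_of_nonneg (by positivity)]
    apply one_div_le_one_div_of_le (by positivity)
    nlinarith [sq_nonneg t]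
  have hsf : Summable fun n : ℕ => a (n + 1) / (t ^ 2 + ((n : ℝ) + 1) ^ 2) :=
    Summable.of_norm_bounded hs0 hnorm
  have hsplit := hsf.tsum_eq_zero_add
  have htail : ‖∑' n : ℕ, a (n + 1 + 1) / (t ^ 2 + (((n + 1 : ℕ) : ℝ) + 1) ^ 2)‖ ≤
      Real.pi ^ 2 / 6 - 1 := by
    rw [← hsum1]
    refine tsum_of_norm_bounded hs1.hasSum fun n => ?_
    have := hnorm (n + 1)
    push_cast at this ⊢
    exact this
  intro h0
  unfold f at h0
  rw [hsplit] at h0
  have h1 : a 1 / (t ^ 2 + 1) =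
      -∑' n : ℕ, a (n + 1 + 1) / (t ^ 2 + (((n + 1 : ℕ) : ℝ) + 1) ^ 2) := by
    have : a (0 + 1) / (t ^ 2 + (((0 : ℕ) : ℝ) + 1) ^ 2) = a 1 / (t ^ 2 + 1) := by norm_num
    rw [this] at h0
    linarith
  have h2 := congrArg norm h1
  rw [norm_neg, norm_div, Real.norm_eq_abs, abs_a ha, Real.norm_of_nonneg (by positivity)] at h2
  have h3 : 4 / 5 ≤ 1 / (t ^ 2 + 1) := by
    rw [div_le_div_iff₀ (by norm_num) (by positivity)]
    linarith
  have h4 : Real.pi ^ 2 / 6 - 1 < 4 / 5 := by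
    have := Real.pi_lt_d2
    have := Real.pi_pos
    nlinarith
  linarith

lemma f_even (a : ℕ → ℝ) (t : ℝ) : f a (-t) = f a t := by
  unfold f; simp

/-- The zeros satisfy the condition of Blaschke. -/
lemma zeros_sum {a : ℕ → ℝ} (ha : ∀ n, a n = 1 ∨ a n = -1) :
    ∃ C : ℝ, ∀ S : Finset ℝ, (∀ t ∈ S, 0 < t ∧ f a t = 0) → ∑ t ∈ S, 1 / t ≤ C := by
  classical
  set h : ℂ → ℂ := fun z => F a (z + 1 / 4) with hh
  set U : Set ℂ := {z : ℂ | -(1 / 8) < z.re} with hU
  have hUo : IsOpen U := isOpen_lt continuous_const Complex.continuous_re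
  have hd : DifferentiableOn ℂ h U := by
    apply (F_diff ha).comp (by fun_prop)
    intro z hz
    have : -(1 / 8) < z.re := hz
    show 1 / 8 < (z + 1 / 4).re
    have e : (z + 1 / 4).re = z.re + 1 / 4 := by
      rw [Complex.add_re]; norm_num
    rw [e]; linarith
  obtain ⟨C, hC⟩ := Pool.Agent.V1175.blaschke_sum h U hUo (by
      intro z hz
      have : 0 ≤ z.re := hz
      show -(1 / 8) < z.re
      linarith) hd C0 (by
      intro z hz
      apply F_bound ha
      have e : (z + 1 / 4).re = z.re + 1 / 4 := by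
        rw [Complex.add_re]; norm_num
      rw [e]; linarith) (1 / 4) (by norm_num) (by
      simp only [hh]
      have e : (((1 / 4 : ℝ) : ℂ) + 1 / 4) = ((1 / 2 : ℝ) : ℂ) := by push_cast; norm_num
      rw [e, F_real]
      have := f_ne ha (t := 1 / 2) (by rw [abs_of_pos (by norm_num)])
      exact_mod_cast this)
  refine ⟨C, fun S hS => ?_⟩
  have h1 := hC (S.image fun t => t - 1 / 4) (by
    intro s hs
    obtain ⟨t, ht, rfl⟩ := Finset.mem_image.mp hs
    obtain ⟨ht0, htz⟩ := hS t ht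
    constructor
    · by_contra hlt
      push Not at hlt
      exact f_ne ha (t := t) (by rw [abs_of_pos ht0]; linarith) htz
    · simp only [hh]
      have e : (((t - 1 / 4 : ℝ) : ℂ) + 1 / 4) = (t : ℂ) := by push_cast; ring
      rw [e, F_real, htz]; rfl)
  rw [Finset.sum_image (by intro x _ y _ h; simpa using h)] at h1
  refine le_trans (le_of_eq ?_) h1
  refine Finset.sum_congr rfl fun t _ => ?_
  congr 1; ring

/-- **Result.** For every sequence of signs the real zeros of `f_a` satisfy `∑ 1/|t| < ∞`, there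
are finitely many of them in every bounded interval, and `Z_a(X) = o(X)`. -/
theorem result (a : ℕ → ℝ) (ha : ∀ n, a n = 1 ∨ a n = -1) :
    (∀ X : ℝ, {t : ℝ | |t| < X ∧ f a t = 0}.Finite) ∧
    Tendsto (fun X : ℝ => (Z a X : ℝ) / X) atTop (𝓝 0) ∧
    Summable (fun t : {t : ℝ // f a t = 0} => 1 / |(t : ℝ)|) := by
  classical
  obtain ⟨C, hC⟩ := zeros_sum ha
  -- all zeros
  have hC2 : ∀ S : Finset ℝ, (∀ t ∈ S, f a t = 0) → ∑ t ∈ S, 1 / |t| ≤ 2 * C := by
    intro S hS
    have hne : ∀ t ∈ S, t ≠ 0 := by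
      intro t ht h0
      exact f_ne ha (t := t) (by rw [h0]; norm_num) (hS t ht)
    have e : S = S.filter (0 < ·) ∪ S.filter (· < 0) := by
      ext t
      simp only [Finset.mem_union, Finset.mem_filter]
      constructor
      · intro ht
        rcases lt_or_gt_of_ne (hne t ht) with h | h
        · right; exact ⟨ht, h⟩
        · left; exact ⟨ht, h⟩
      · rintro (h | h) <;> exact h.1
    have hdisj : Disjoint (S.filter (0 < ·)) (S.filter (· < 0)) := by
      rw [Finset.disjoint_filter]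
      intro t _ h1 h2
      exact absurd h1 (not_lt.mpr h2.le)
    rw [e, Finset.sum_union hdisj]
    have h1 := hC (S.filter (0 < ·)) (by
      intro t ht
      rw [Finset.mem_filter] at ht
      exact ⟨ht.2, hS t ht.1⟩)
    have h2 := hC ((S.filter (· < 0)).image fun t => -t) (by
      intro s hs
      obtain ⟨t, ht, rfl⟩ := Finset.mem_image.mp hs
      rw [Finset.mem_filter] at ht
      exact ⟨by linarith [ht.2], by rw [f_even]; exact hS t ht.1⟩)
    rw [Finset.sum_image (by intro x _ y _ h; simpa using h)] at h2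
    have h3 : ∑ t ∈ S.filter (0 < ·), 1 / |t| = ∑ t ∈ S.filter (0 < ·), 1 / t := by
      refine Finset.sum_congr rfl fun t ht => ?_
      rw [Finset.mem_filter] at ht
      rw [abs_of_pos ht.2]
    have h4 : ∑ t ∈ S.filter (· < 0), 1 / |t| = ∑ t ∈ S.filter (· < 0), 1 / (-t) := by
      refine Finset.sum_congr rfl fun t ht => ?_
      rw [Finset.mem_filter] at ht
      rw [abs_of_neg ht.2]
    rw [h3, h4]
    linarith
  have hsummable : Summable (fun t : {t : ℝ // f a t = 0} => 1 / |(t : ℝ)|) := by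
    apply summable_of_sum_le (c := 2 * C) (fun t => by positivity)
    intro u
    have h1 := hC2 (u.map (Function.Embedding.subtype _)) (by
      intro t ht
      rw [Finset.mem_map] at ht
      obtain ⟨s, _, rfl⟩ := ht
      exact s.2)
    rw [Finset.sum_map] at h1
    exact h1
  have hfin : ∀ X : ℝ, {t : ℝ | |t| < X ∧ f a t = 0}.Finite := by
    intro X
    by_contra hinf
    have hinf' : {t : ℝ | |t| < X ∧ f a t = 0}.Infinite := hinf
    obtain ⟨n, hn⟩ := exists_nat_gt (2 * C * X)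
    obtain ⟨S, hSs, hScard⟩ := hinf'.exists_subset_card_eq n
    have hX : 0 < X := by
      obtain ⟨t, ht⟩ := hinf'.nonempty
      exact (abs_nonneg t).trans_lt ht.1
    have h1 := hC2 S (fun t ht => (hSs ht).2)
    have h2 : (S.card : ℝ) * (1 / X) ≤ ∑ t ∈ S, 1 / |t| := by
      rw [← nsmul_eq_mul]
      apply Finset.card_nsmul_le_sum
      intro t ht
      have ht1 := (hSs ht).1
      have ht0 : 0 < |t| := by
        rw [abs_pos]
        intro h0
        exact f_ne ha (t := t) (by rw [h0]; norm_num) (hSs ht).2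
      exact one_div_le_one_div_of_le ht0 ht1.le
    have h3 := h2.trans h1
    rw [mul_one_div, div_le_iff₀ hX, hScard] at h3
    linarith
  refine ⟨hfin, ?_, hsummable⟩
  -- the limit
  have hlim : Tendsto (fun X : ℝ => ∑' t : {t : ℝ // f a t = 0},
      (if |(t : ℝ)| < X then 1 / X else 0)) atTop (𝓝 0) := by
    have h := tendsto_tsum_of_dominated_convergence (𝓕 := atTop) (α := ℝ)
      (f := fun X (t : {t : ℝ // f a t = 0}) => if |(t : ℝ)| < X then 1 / X else (0 : ℝ))
      (g := fun _ => (0 : ℝ)) hsummable (by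
        intro t
        have h1 : Tendsto (fun X : ℝ => 1 / X) atTop (𝓝 0) := by
          simpa using tendsto_inv_atTop_zero
        refine squeeze_zero' ?_ ?_ h1
        · filter_upwards [eventually_gt_atTop (0 : ℝ)] with X hX
          split_ifs <;> positivity
        · filter_upwards [eventually_gt_atTop (0 : ℝ)] with X hX
          split_ifs
          · exact le_rfl
          · positivity) (by
        filter_upwards [eventually_gt_atTop (0 : ℝ)] with X hX
        intro t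
        have ht0 : 0 < |(t : ℝ)| := by
          rw [abs_pos]
          intro h0
          exact f_ne ha (t := t) (by rw [h0]; norm_num) t.2
        split_ifs with hlt
        · rw [Real.norm_of_nonneg (by positivity)]
          exact one_div_le_one_div_of_le ht0 hlt.le
        · rw [norm_zero]; positivity)
    simpa using h
  refine squeeze_zero' ?_ ?_ hlim
  · filter_upwards [eventually_gt_atTop (0 : ℝ)] with X hX
    positivity
  · filter_upwards [eventually_gt_atTop (0 : ℝ)] with X hX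
    set T := (hfin X).toFinset with hT
    have hTm : ∀ t, t ∈ T ↔ |t| < X ∧ f a t = 0 := by
      intro t; rw [hT, Set.Finite.mem_toFinset]; rfl
    have hcard : Z a X = T.card := by
      unfold Z
      rw [Set.ncard_eq_toFinset_card _ (hfin X)]
    set u : Finset {t : ℝ // f a t = 0} := T.subtype (fun t => f a t = 0) with hu
    have hucard : u.card = T.card := by
      rw [hu, Finset.card_subtype, Finset.filter_true_of_mem]
      intro t ht
      exact ((hTm t).mp ht).2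
    have hs : Summable (fun t : {t : ℝ // f a t = 0} => if |(t : ℝ)| < X then 1 / X else (0:ℝ)) := by
      refine Summable.of_nonneg_of_le (fun t => by split_ifs <;> positivity) (fun t => ?_) hsummable
      have ht0 : 0 < |(t : ℝ)| := by
        rw [abs_pos]
        intro h0
        exact f_ne ha (t := t) (by rw [h0]; norm_num) t.2
      split_ifs with hlt
      · exact one_div_le_one_div_of_le ht0 hlt.le
      · positivity
    have h1 := hs.sum_le_tsum u (fun t _ => by split_ifs <;> positivity)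
    have h2 : ∑ t ∈ u, (if |(t : ℝ)| < X then 1 / X else (0:ℝ)) = (Z a X : ℝ) / X := by
      have h3 : ∑ t ∈ u, (if |(t : ℝ)| < X then 1 / X else (0:ℝ)) = ∑ t ∈ u, 1 / X := by
        refine Finset.sum_congr rfl fun t ht => ?_
        rw [hu, Finset.mem_subtype] at ht
        rw [if_pos ((hTm t).mp ht).1]
      rw [h3, Finset.sum_const, nsmul_eq_mul, hcard, hucard]
      ring
    rw [← h2]
    exact h1

end Pool.Agent.Results.MP_51e19e_an.SublinearZeros
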